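import Pool.Agent.Work.MP_54723a_co.CFL.Const
import Pool.Agent.Work.MP_54723a_co.CF.LymRatio

/-!
# Monotone flashes and rainbows: `f(l, k)` up to a constant factor, for every fixed `l ≥ 3`

`f k` below is the number `f(l, k)` of the problem: on more than `f k` ordered vertices every edge
colouring of the complete graph has an `l`-flash or a `k`-rainbow, and some colouring on `f k`
vertices has neither.  The problem is the case `l = 3`.
-/

set_option autoImplicit false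

namespace Pool.Agent.Work.MP_54723a_co.Cand.ConstantFactorL

/-- For every `l ≥ 3` the numbers `f(l, k)`, `k ≥ 1`, satisfy `l f(l, k) ≤ f(l, k + 1)`, the ratio
`f(l, k) / l ^ (k - 1)` converges to a real number `L ≥ 1`, `f(l, k) ≤ L l ^ (k - 1)` for all
`k ≥ 1`, and `L = 1` if and only if `f(l, k) = l ^ (k - 1)` for all `k ≥ 1`. -/
theorem result : ∀ l : ℕ, 3 ≤ l →
    ∃ (f : ℕ → ℕ) (L : ℝ),
      (∀ k : ℕ, 1 ≤ k →
        (∀ n : ℕ, f k < n → ∀ c : Fin n → Fin n → ℕ,
          (∃ x : Fin (l + 1) → Fin n, StrictMono x ∧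
            ∃ col : ℕ, ∀ i : Fin l, c (x i.castSucc) (x i.succ) = col) ∨
          (∃ y : Fin (k + 1) → Fin n, StrictMono y ∧
            Function.Injective (fun i : Fin k => c (y i.castSucc) (y i.succ)))) ∧
        (∃ c : Fin (f k) → Fin (f k) → ℕ,
          (¬ ∃ x : Fin (l + 1) → Fin (f k), StrictMono x ∧
            ∃ col : ℕ, ∀ i : Fin l, c (x i.castSucc) (x i.succ) = col) ∧
          (¬ ∃ y : Fin (k + 1) → Fin (f k), StrictMono y ∧
            Function.Injective (fun i : Fin k => c (y i.castSucc) (y i.succ))))) ∧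
      (∀ k : ℕ, 1 ≤ k → l * f k ≤ f (k + 1)) ∧
      Filter.Tendsto (fun k : ℕ => (f k : ℝ) / (l : ℝ) ^ (k - 1)) Filter.atTop (nhds L) ∧
      1 ≤ L ∧
      (∀ k : ℕ, 1 ≤ k → (f k : ℝ) ≤ L * (l : ℝ) ^ (k - 1)) ∧
      (L = 1 ↔ ∀ k : ℕ, 1 ≤ k → f k = l ^ (k - 1)) := by
  obtain ⟨f, L, h⟩ := FlashRainbow.Lim.limit_lym_all (l₀ := 3) (by norm_num)
    (fun l hl => FlashRainbow.CFL.constant_factor hl)
  intro l hl
  obtain ⟨h1, h2, h3, h4, h5, -, h6⟩ := h l hl
  exact ⟨f l, L l, h1, h2, h3, h4, h5, h6⟩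

end Pool.Agent.Work.MP_54723a_co.Cand.ConstantFactorL
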